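import Mathlib

/-!
# Project KS, packages COV and LIM: the core (Mathlib only)
-/

set_option autoImplicit false

open Finset Filter Topology
open scoped Classical

namespace Pool.Agent.Helper43.KS

/-- copy of `coverNum` -/
noncomputable def cN {n : ℕ} (B : Set (EuclideanSpace ℝ (Fin n))) (δ : ℝ) : ℕ :=
  sInf {N | ∃ U : Fin N → Set (EuclideanSpace ℝ (Fin n)),
    (∀ i, ∀ x ∈ U i, ∀ y ∈ U i, dist x y ≤ δ) ∧ B ⊆ ⋃ i, U i}

theorem cover_ne {n : ℕ} {K : Set (EuclideanSpace ℝ (Fin n))} (hK : Bornology.IsBounded K)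
    {δ : ℝ} (hδ : 0 < δ) : {N | ∃ U : Fin N → Set (EuclideanSpace ℝ (Fin n)),
      (∀ i, ∀ x ∈ U i, ∀ y ∈ U i, dist x y ≤ δ) ∧ K ⊆ ⋃ i, U i}.Nonempty := by
  have h1 : TotallyBounded K := hK.isCompact_closure.totallyBounded.subset subset_closure
  obtain ⟨t, ht, hKt⟩ := Metric.totallyBounded_iff.1 h1 (δ / 2) (by positivity)
  refine ⟨ht.toFinset.card, fun i => Metric.ball ((ht.toFinset.equivFin.symm i : _)) (δ / 2),
    ?_, ?_⟩
  · intro i x hx y hy
    have h2 := Metric.mem_ball.1 hx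
    have h3 := Metric.mem_ball'.1 hy
    have h4 := dist_triangle x ((ht.toFinset.equivFin.symm i : _)) y
    linarith
  · intro x hx
    obtain ⟨y, hy, hxy⟩ := Set.mem_iUnion₂.1 (hKt hx)
    refine Set.mem_iUnion.2 ⟨ht.toFinset.equivFin ⟨y, ht.mem_toFinset.2 hy⟩, ?_⟩
    simpa using hxy

theorem cN_spec {n : ℕ} {K : Set (EuclideanSpace ℝ (Fin n))} (hK : Bornology.IsBounded K)
    {δ : ℝ} (hδ : 0 < δ) : ∃ U : Fin (cN K δ) → Set (EuclideanSpace ℝ (Fin n)),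
      (∀ i, ∀ x ∈ U i, ∀ y ∈ U i, dist x y ≤ δ) ∧ K ⊆ ⋃ i, U i :=
  Nat.sInf_mem (cover_ne hK hδ)

theorem cN_anti {n : ℕ} {K : Set (EuclideanSpace ℝ (Fin n))} (hK : Bornology.IsBounded K)
    {δ δ' : ℝ} (hδ : 0 < δ) (h : δ ≤ δ') : cN K δ' ≤ cN K δ := by
  obtain ⟨U, hU, hKU⟩ := cN_spec hK hδ
  exact Nat.sInf_le ⟨U, fun i x hx y hy => (hU i x hx y hy).trans h, hKU⟩

theorem floor_near {a b : ℝ} (h : |a - b| ≤ 1) : ⌊b⌋ - 1 ≤ ⌊a⌋ ∧ ⌊a⌋ ≤ ⌊b⌋ + 1 := by
  obtain ⟨h1, h2⟩ := abs_le.1 h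
  have ha := Int.floor_le a
  have ha' := Int.lt_floor_add_one a
  have hb := Int.floor_le b
  have hb' := Int.lt_floor_add_one b
  constructor
  · have : (⌊b⌋ : ℝ) < ((⌊a⌋ + 2 : ℤ) : ℝ) := by push_cast; linarith
    have := Int.cast_lt.1 this
    omega
  · have : (⌊a⌋ : ℝ) < ((⌊b⌋ + 2 : ℤ) : ℝ) := by push_cast; linarith
    have := Int.cast_lt.1 this
    omega

theorem cov0 (n : ℕ) (K : Set (EuclideanSpace ℝ (Fin n))) (hK : Bornology.IsBounded K)
    (R : ℕ) (hR : 1 ≤ R) (u : Fin n → ℝ) (S : Finset (Fin n → ℤ))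
    (hS : ∀ z ∈ S, ∃ y ∈ K, ∀ k, z k = ⌊(R : ℝ) * y k - u k⌋) :
    S.card ≤ 3 ^ n * cN K (1 / R) := by
  have hR0 : (0 : ℝ) < R := by exact_mod_cast hR
  obtain ⟨U, hU, hKU⟩ := cN_spec hK (δ := 1 / (R : ℝ)) (by positivity)
  rcases S.eq_empty_or_nonempty with rfl | hne
  · simp
  obtain ⟨z0, hz0⟩ := hne
  have hidx : ∀ z : Fin n → ℤ, z ∈ S → ∃ i : Fin (cN K (1 / R)), ∃ y ∈ U i,
      ∀ k, z k = ⌊(R : ℝ) * y k - u k⌋ := by
    intro z hz
    obtain ⟨y, hy, hzy⟩ := hS z hz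
    obtain ⟨i, hi⟩ := Set.mem_iUnion.1 (hKU hy)
    exact ⟨i, y, hi, hzy⟩
  obtain ⟨i0, -⟩ := hidx z0 hz0
  set f : (Fin n → ℤ) → Fin (cN K (1 / R)) := fun z =>
    if hz : z ∈ S then (hidx z hz).choose else i0 with hf
  have hfS : ∀ z ∈ S, ∃ y ∈ U (f z), ∀ k, z k = ⌊(R : ℝ) * y k - u k⌋ := by
    intro z hz
    have := (hidx z hz).choose_spec
    simp only [hf, dif_pos hz]
    exact this
  have h1 : S.card ≤ 3 ^ n * (S.image f).card := by
    apply Finset.card_le_mul_card_image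
    intro i hi
    obtain ⟨z1, hz1, rfl⟩ := Finset.mem_image.1 hi
    obtain ⟨y1, hy1, hzy1⟩ := hfS z1 hz1
    have hsub : (S.filter fun x => f x = f z1) ⊆
        Fintype.piFinset fun k => Finset.Icc (z1 k - 1) (z1 k + 1) := by
      intro z hz
      obtain ⟨hzS, hzf⟩ := Finset.mem_filter.1 hz
      obtain ⟨y, hy, hzy⟩ := hfS z hzS
      rw [hzf] at hy
      rw [Fintype.mem_piFinset]
      intro k
      rw [Finset.mem_Icc, hzy k, hzy1 k]
      apply floor_near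
      have h2 := hU _ y hy y1 hy1
      have h3 : |y k - y1 k| ≤ dist y y1 := by
        rw [dist_eq_norm]
        have := PiLp.norm_apply_le (y - y1) k
        simpa [Real.norm_eq_abs] using this
      have h4 : |y k - y1 k| ≤ 1 / R := h3.trans h2
      rw [show (R : ℝ) * y k - u k - ((R : ℝ) * y1 k - u k) = R * (y k - y1 k) by ring,
        abs_mul, abs_of_pos hR0]
      calc (R : ℝ) * |y k - y1 k| ≤ R * (1 / R) := by gcongr
        _ = 1 := by field_simp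
    refine (Finset.card_le_card hsub).trans ?_
    rw [Fintype.card_piFinset]
    simp only [Int.card_Icc]
    have : ∀ k : Fin n, (z1 k + 1 + 1 - (z1 k - 1)).toNat = 3 := fun k => by omega
    simp only [this]
    simp
  refine h1.trans (Nat.mul_le_mul_left _ ?_)
  exact (Finset.card_le_univ _).trans (by simp)

theorem lim0 (n : ℕ) (K : Set (EuclideanSpace ℝ (Fin n))) (s : ℝ) (hK : Bornology.IsBounded K)
    (h : ∀ σ : ℝ, σ < s → ∃ C : ℝ, 0 < C ∧ ∃ R₀ : ℕ, ∀ R : ℕ, R₀ ≤ R →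
      (R : ℝ) ^ σ ≤ C * cN K (1 / R)) :
    (s : EReal) ≤ liminf (fun δ : ℝ =>
      ((Real.log (cN K δ) / Real.log (1 / δ) : ℝ) : EReal)) (𝓝[>] 0) := by
  rw [← EReal.ge_of_forall_gt_iff_ge]
  intro σ' hσ'
  have hσs : σ' < s := EReal.coe_lt_coe_iff.1 hσ'
  obtain ⟨C, hC, R₀, hR₀⟩ := h ((σ' + s) / 2) (by linarith)
  set σ := (σ' + s) / 2 with hσ
  have hσσ' : σ' < σ := by rw [hσ]; linarith
  refine le_liminf_of_le (by isBoundedDefault) ?_
  have hlog : Tendsto (fun δ : ℝ => Real.log (1 / δ)) (𝓝[>] 0) atTop := by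
    simp only [one_div]
    exact Real.tendsto_log_atTop.comp tendsto_inv_nhdsGT_zero
  have hinv : Tendsto (fun δ : ℝ => 1 / δ) (𝓝[>] 0) atTop := by
    simp only [one_div]
    exact tendsto_inv_nhdsGT_zero
  filter_upwards [self_mem_nhdsWithin, hlog.eventually_ge_atTop 1,
    hlog.eventually_ge_atTop ((|σ| * Real.log 2 + Real.log C) / (σ - σ')),
    hinv.eventually_ge_atTop ((R₀ : ℝ) + 2)] with δ hδ hl1 hl2 hl3
  have hδ0 : (0 : ℝ) < δ := hδ
  set R := ⌊1 / δ⌋₊ with hR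
  have hR1 : (R : ℝ) ≤ 1 / δ := Nat.floor_le (by positivity)
  have hR2 : 1 / δ < R + 1 := Nat.lt_floor_add_one _
  have hR0R : R₀ ≤ R := by
    have : (R₀ : ℝ) < (R : ℝ) + 1 := by linarith
    have : R₀ < R + 1 := by exact_mod_cast this
    omega
  have hRge : (1 : ℝ) ≤ R := by
    have h0 : (0 : ℝ) ≤ R₀ := Nat.cast_nonneg _
    linarith
  have hRpos : (0 : ℝ) < R := by linarith
  have hR3 : 1 / δ ≤ 2 * R := by linarith
  have h1 := hR₀ R hR0R
  have hδR : δ ≤ 1 / R := by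
    rw [le_div_iff₀ hRpos]
    rw [le_div_iff₀ hδ0] at hR1
    linarith
  have h2 : (cN K (1 / R) : ℝ) ≤ cN K δ := by exact_mod_cast cN_anti hK hδ0 hδR
  have h3 : (R : ℝ) ^ σ ≤ C * cN K δ := h1.trans (by gcongr)
  have h4 : 0 < (R : ℝ) ^ σ := Real.rpow_pos_of_pos hRpos _
  have h5 : (0 : ℝ) < cN K δ := by
    rcases (Nat.cast_nonneg (α := ℝ) (cN K δ)).eq_or_lt with h0 | h0
    · rw [← h0, mul_zero] at h3
      linarith
    · exact h0
  have h6 : σ * Real.log R ≤ Real.log C + Real.log (cN K δ) := by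
    rw [← Real.log_rpow hRpos, ← Real.log_mul hC.ne' h5.ne']
    exact Real.log_le_log h4 h3
  have h7 : |Real.log (1 / δ) - Real.log R| ≤ Real.log 2 := by
    have h8 : Real.log R ≤ Real.log (1 / δ) := Real.log_le_log hRpos hR1
    have h9 : Real.log (1 / δ) ≤ Real.log 2 + Real.log R := by
      rw [← Real.log_mul (by norm_num) hRpos.ne']
      exact Real.log_le_log (by positivity) hR3
    rw [abs_of_nonneg (by linarith)]
    linarith
  have h8 : σ * (Real.log (1 / δ) - Real.log R) ≤ |σ| * Real.log 2 :=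
    calc σ * (Real.log (1 / δ) - Real.log R) ≤ |σ * (Real.log (1 / δ) - Real.log R)| :=
          le_abs_self _
      _ = |σ| * |Real.log (1 / δ) - Real.log R| := abs_mul _ _
      _ ≤ _ := by gcongr
  have hl0 : 0 < Real.log (1 / δ) := by linarith
  rw [div_le_iff₀ (by linarith)] at hl2
  rw [EReal.coe_le_coe_iff, le_div_iff₀ hl0]
  nlinarith [h6, h8, hl2]

end Pool.Agent.Helper43.KS
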