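import Pool.Agent.Helper20.KS.Stm
import Pool.Agent.Helper43.KS.Base

/-!
# Project KS, packages LIM and COV
-/

set_option autoImplicit false

namespace Pool.Agent.Helper43.KS

/-- **Package LIM.** -/
theorem lim : Pool.Agent.Helper20.KS.S_LIM := fun n K s hK h => lim0 n K s hK h

/-- **Package COV.** -/
theorem cov : Pool.Agent.Helper20.KS.S_COV := fun n K hK R hR u S hS => cov0 n K hK R hR u S hS

end Pool.Agent.Helper43.KS
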